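import Pool.Agent.TH141.IncE

/-!
# The point-plane incidence variety in `ℙ³` is not `D`-affine, in any positive characteristic

Let `X ⊂ ℙ³ × (ℙ³)^∨` be the incidence variety `∑ x_i y_i = 0` over an algebraically closed field
`k` of characteristic `p > 0`, embedded in `ℙ¹⁵` by Segre. We prove that `H¹(X, D_X) ≠ 0` for every
`p`, in the form of the Čech cohomology for the covering of `X` by the 16 affine open sets
`x_i y_j ≠ 0`. As `D_X` is itself a `D_X`-module, quasi-coherent over `O_X`, the variety `X` is not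
`D`-affine.

The class. Let `q = p²`, `f = ∑ x_i y_i`, and let `g` be the operator on the polynomials, linear over
the `q`-th powers, that maps `m = x_0 y_0⁻¹ y_1⁻¹ x_2⁻¹ y_2 x_3⁻¹` to
`e = x_0^(q-1) y_0⁻¹ x_1^(q-1) y_1⁻¹ x_2^(2-q) y_2² x_3^(-q)` and the monomials in the other
residue classes of exponents modulo `q` to zero. Where `x_i ≠ 0`, the operator
`Y_i = x_i^(-q) ∂/∂(y_i^q)` satisfies `[Y_i, f^q] = 1`, whence `g = β_i f - f (f^(q-1) g Y_i)` with
`β_i = g Y_i f^(q-1)`, and the differences `β_j - β_i` induce differential operators on `X`,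
which form a cocycle. If it were a coboundary, then the class `e` in the local cohomology
`M = H⁴_J(P)` at the variables `J = (y_0, y_1, x_2, x_3)` would be `f m'` for some `m'` in `M`
(as `f m = 0` in `M` and `g m = e`); but the component of `M` of torus weight `(q, q, -q, -q)` is
`k[u_0, …, u_3] / (u_i^q)`, where `f` acts as `u_0 + u_1 + u_2 + u_3` and `e` is
`u_0^(q-1) u_1^(q-1) u_2²`, which is nonzero in the quotient
`k[u_0, u_1, u_2] / (u_0^q, u_1^q, u_2^q)` by `u_0 + u_1 + u_2 + u_3`.
-/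

namespace Pool.Agent.Results.MP_7b9e54_ag.NotDAffine

open Pool.Agent.H824 Pool.Agent.TH141

theorem result (k : Type*) [Field k] [IsAlgClosed k] (p : ℕ) [Fact p.Prime] [CharP k p] :
    ∃ V : ProjVariety k (Fin 4 × Fin 4),
      (∀ F, F ∈ V.ideal ↔ ∀ x y : Fin 4 → k, ∑ i, x i * y i = 0 →
        MvPolynomial.eval (fun a => x a.1 * y a.2) F = 0) ∧
      (∀ z, z ∈ V.points ↔ z ≠ 0 ∧ ∃ x y : Fin 4 → k, ∑ i, x i * y i = 0 ∧
        z = fun a => x a.1 * y a.2) ∧
      ¬ V.DiffVanishing id p 0 :=
  ⟨incVar k, mem_incVar, inc_points, inc_not_vanishing p⟩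

end Pool.Agent.Results.MP_7b9e54_ag.NotDAffine
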